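import Pool.Agent.Q61.MK.Eng

/-! Job EXP1 of the project MK of helper291. -/

set_option autoImplicit false

namespace Pool.Agent.Q61.MK

open Pool.Agent.Q291.MK

theorem dv1 {E A r μ : ℝ} {p q : ℕ} (hr : 1 ≤ r) (hμ : r ^ 2 = μ) (hA : 0 ≤ A)
    (h : E ≤ A * r ^ p) (hpq : p ≤ 2 * q + 2) : E / μ ^ q ≤ A * μ := by
  have hr0 : 0 < r := by linarith
  rw [← hμ, div_le_iff₀ (by positivity)]
  calc E ≤ A * r ^ p := h
    _ ≤ A * r ^ (2 * q + 2) := mul_le_mul_of_nonneg_left (pow_le_pow_right₀ hr hpq) hA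
    _ = A * r ^ 2 * (r ^ 2) ^ q := by rw [pow_add, pow_mul]; ring

theorem abs_mulc {c x : ℝ} (hc : 0 ≤ c) : |c * x| = c * |x| := by
  rw [abs_mul, abs_of_nonneg hc]

theorem abs_dv {x c : ℝ} (hc : 0 < c) : |x / c| = |x| / c := by
  rw [abs_div, abs_of_pos hc]

theorem mu_pow {μ : ℝ} (hμ : 1 ≤ μ) {p q s : ℕ} (h : p + s ≤ q) : μ ^ p / μ ^ q ≤ 1 / μ ^ s :=
  pw hμ h

theorem XU (μ : ℝ) (p : ℕ) (K L : ℕ) : |X μ K L| ^ p ≤ U μ K L ^ p :=
  pow_le_pow_left₀ (abs_nonneg _) (X_le_U μ K L) p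

theorem EX_le {a : ℕ → ℝ} (ha : AM a) {μ G r : ℝ}
    (hmom : ∀ p : ℕ, p ≤ 8 → E2 a (fun K L => U μ K L ^ p) ≤ G * r ^ p) (p : ℕ) (hp : p ≤ 8) :
    E2 a (fun K L => |X μ K L| ^ p) ≤ G * r ^ p :=
  (ha.E2_mono ((PB2_X μ).abs.pow p) ((PB2_U μ).pow p) fun K L => XU μ p K L).trans (hmom p hp)

theorem t_EXP1 (hM : P_EXPM) (hA : P_EXPA) : P_EXP1 := by
  intro C8 hC8
  obtain ⟨G, hG1, heng⟩ := eng hM hA C8 hC8
  refine ⟨23 * G + 1, by positivity, ?_⟩
  intro C3 hC3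
  refine ⟨2 * (3 * G ^ 2 + 2 * G + C3 + 3 / 2 * G) + 2 * (3 * G ^ 2 + 9 * G + 3 / 2 * C3),
    10 + 20 * G + 2 * (4 * C3 * G + 3 * G ^ 2 + 8 * G), by positivity, by
      have : 0 ≤ 20 * G + 2 * (4 * C3 * G + 3 * G ^ 2 + 8 * G) := by positivity
      linarith, ?_⟩
  intro a ha hμM
  have hbig : 0 ≤ 2 * (4 * C3 * G + 3 * G ^ 2 + 8 * G) := by positivity
  have hμ10 : 10 ≤ mean a := by linarith
  have hμG : 20 * G ≤ mean a := by linarith
  obtain ⟨hmom, htail, Z0, c0, hZ0, hc0, hZ, hexp⟩ := heng C3 a ha hμ10 hμG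
  obtain ⟨m1, m2, m3, m4, m5, m6, m7⟩ := hM C3 C8 a ha (by linarith)
  have ham := ha.toAM
  have hvr := ha.vr_le
  have hk3 := ha.k3_le
  obtain ⟨μ, hμe⟩ : ∃ μ, μ = mean a := ⟨_, rfl⟩
  simp only [← hμe] at hμ10 hμG hmom htail hc0 hZ hexp m3 m4 m5 m7 hvr hk3 hμM ⊢
  have hμ0 : 0 < μ := by linarith
  have hμ1 : 1 ≤ μ := by linarith
  have hr1 : 1 ≤ √μ := by
    rw [Real.one_le_sqrt]
    linarith
  have hrr : √μ ^ 2 = μ := Real.sq_sqrt hμ0.le
  obtain ⟨r, hr⟩ : ∃ r, r = √μ := ⟨_, rfl⟩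
  rw [← hr] at hr1 hrr hmom
  have hX := PB2_X μ
  have hG0 : 0 ≤ G := by linarith
  have hEX := EX_le ham hmom
  have hd : G / μ ≤ 1 / 20 := by
    rw [div_le_iff₀ hμ0]
    linarith
  have f1 : E2 a (fun K L => X μ K L) = 0 := m3
  have f2 : E2 a (fun K L => X μ K L ^ 2) = 2 * vr a := m4
  have f3 : E2 a (fun K L => X μ K L ^ 3) = 2 * k3 a := m5
  have hvr0 : 0 ≤ vr a := by
    have h1 : 0 ≤ E2 a (fun K L => X μ K L ^ 2) := by
      have := ham.E2_mono (PB2.const 0) (hX.pow 2) fun K L => sq_nonneg (X μ K L)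
      rwa [ham.E2_cst] at this
    rw [f2] at h1
    linarith
  have hC30 : 0 < C3 := by linarith
  -- the error terms
  have herr : ∀ p : ℕ, 1 ≤ p → p ≤ 4 → PB2 (fun K L => X μ K L ^ p) ∧
      (∀ K L : ℕ, (K : ℝ) + L < 3 / 4 * μ → |X μ K L ^ p| ≤ (2 * μ) ^ p) ∧
      E2 a (fun K L => |X μ K L ^ p| * |X μ K L| ^ 3) ≤ G * r ^ (p + 3) ∧
      E2 a (fun K L => |X μ K L ^ p| * |X μ K L|) ≤ G * r ^ (p + 1) ∧
      E2 a (fun K L => |X μ K L ^ p|) ≤ G * r ^ p := by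
    intro p hp1 hp4
    refine ⟨hX.pow p, ?_, ?_, ?_, ?_⟩
    · intro K L h
      rw [abs_pow]
      exact pow_le_pow_left₀ (abs_nonneg _) (bad_X h) p
    · refine le_trans (le_of_eq ?_) (hEX (p + 3) (by omega))
      congr 1
      funext K L
      rw [abs_pow, pow_add]
    · refine le_trans (le_of_eq ?_) (hEX (p + 1) (by omega))
      congr 1
      funext K L
      rw [abs_pow, pow_succ]
    · refine le_trans (le_of_eq ?_) (hEX p (by omega))
      congr 1
      funext K L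
      rw [abs_pow]
  refine ⟨?_, ?_, ?_, ?_⟩
  · -- first moment
    obtain ⟨p1, p2, p3, p4, p5⟩ := herr 1 le_rfl (by norm_num)
    simp only [pow_one] at p1 p2 p3 p4 p5
    obtain ⟨q1, _⟩ := hexp (X μ) (2 * μ) hX (by positivity) p2
    have w1 : E2 a (fun K L => X μ K L * X μ K L) = 2 * vr a := by
      rw [← f2]
      congr 1
      funext K L
      ring
    have w2 : E2 a (fun K L => X μ K L ^ 2 * X μ K L) = 2 * k3 a := by
      rw [← f3]
      congr 1
    rw [w1, w2, show E2 a (X μ) = 0 from f1] at q1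
    have b1 : E2 a (fun K L => |X μ K L| * |X μ K L| ^ 3) / μ ^ 3 ≤ G / μ :=
      dv hr1 hrr hG0 p3 (by norm_num)
    have b2 : E2 a (fun K L => |X μ K L| * |X μ K L|) / μ ^ 2 ≤ G / μ :=
      dv hr1 hrr hG0 p4 (by norm_num)
    have b3 : E2 a (fun K L => |X μ K L|) / μ ^ 2 ≤ G / μ :=
      dv (p := 1) hr1 hrr hG0 (by rw [pow_one]; exact p5) (by norm_num)
    have b4 : G * (2 * μ) / μ ^ 6 ≤ 2 * G / μ := by
      have h := mu_pow hμ1 (show 1 + 1 ≤ 6 by norm_num)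
      rw [pow_one] at h
      calc G * (2 * μ) / μ ^ 6 = 2 * G * (μ / μ ^ 6) := by ring
        _ ≤ 2 * G * (1 / μ) := mul_le_mul_of_nonneg_left h (by positivity)
        _ = 2 * G / μ := by ring
    have b5 : |15 / 32 * (2 * k3 a / μ ^ 2)| ≤ C3 / μ := by
      rw [show 15 / 32 * (2 * k3 a / μ ^ 2) = 15 / 16 * k3 a / μ ^ 2 by ring, abs_div, abs_mul,
        abs_of_pos (show (0 : ℝ) < 15 / 16 by norm_num), abs_of_pos (show 0 < μ ^ 2 by positivity),
        div_le_div_iff₀ (by positivity) hμ0]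
      nlinarith [abs_nonneg (k3 a)]
    have hN : |E2 a (fun K L => I (K + L) * X μ K L) / Z0 - (-(3 / 2 * (vr a / μ)))| ≤
        (3 * G ^ 2 + 2 * G + C3) / μ := by
      have e1 : E2 a (fun K L => I (K + L) * X μ K L) / Z0 - (-(3 / 2 * (vr a / μ))) =
          (E2 a (fun K L => I (K + L) * X μ K L) / Z0 - ((1 + c0) * 0 - 3 / 4 * (2 * vr a / μ) +
            15 / 32 * (2 * k3 a / μ ^ 2))) + 15 / 32 * (2 * k3 a / μ ^ 2) := by ring
      rw [e1]
      refine (abs_add_le _ _).trans ?_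
      have e2 := mul_le_mul_of_nonneg_left (add_le_add (add_le_add b1 b2) b3) hG0
      have e3 : (3 * G ^ 2 + 2 * G + C3) / μ = (G * (G / μ + G / μ + G / μ) + 2 * G / μ) + C3 / μ := by
        ring
      rw [e3]
      exact add_le_add (q1.trans (add_le_add e2 b4)) b5
    have hfin := Ew_near hZ (by linarith) hZ0 hN
    have hm : |-(3 / 2 * (vr a / μ))| ≤ 3 / 2 := by
      rw [abs_neg, abs_of_nonneg (by positivity)]
      have : vr a / μ ≤ 1 := by
        rw [div_le_one hμ0]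
        exact hvr
      linarith
    have e5 : |-(3 / 2 * (vr a / μ))| * (G / μ) ≤ 3 / 2 * (G / μ) :=
      mul_le_mul_of_nonneg_right hm (by positivity)
    have e6 : |Ew a (X μ) + 3 / 2 * (vr a / μ)| ≤
        2 * ((3 * G ^ 2 + 2 * G + C3) / μ + 3 / 2 * (G / μ)) := by
      have e7 : Ew a (X μ) + 3 / 2 * (vr a / μ) = E2 a (fun K L => I (K + L) * X μ K L) /
          E2 a (fun K L => I (K + L)) - (-(3 / 2 * (vr a / μ))) := by
        unfold Ew
        ring
      rw [e7]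
      linarith
    refine e6.trans ?_
    have e8 : 2 * ((3 * G ^ 2 + 2 * G + C3) / μ + 3 / 2 * (G / μ)) =
        (2 * (3 * G ^ 2 + 2 * G + C3 + 3 / 2 * G)) / μ := by ring
    rw [e8]
    refine div_le_div_of_nonneg_right ?_ hμ0.le
    have : 0 ≤ 2 * (3 * G ^ 2 + 9 * G + 3 / 2 * C3) := by positivity
    linarith
  · -- second moment
    obtain ⟨p1, p2, p3, p4, p5⟩ := herr 2 (by norm_num) (by norm_num)
    obtain ⟨q1, _⟩ := hexp (fun K L => X μ K L ^ 2) ((2 * μ) ^ 2) p1 (by positivity) p2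
    have w1 : E2 a (fun K L => X μ K L * X μ K L ^ 2) = 2 * k3 a := by
      rw [← f3]
      congr 1
      funext K L
      ring
    have w2 : |E2 a (fun K L => X μ K L ^ 2 * X μ K L ^ 2)| / μ ^ 2 ≤ G := by
      refine dv0 (p := 4) hr1 hrr hG0 ?_ (by norm_num)
      refine (ham.abs_E2_le ((hX.pow 2).mul (hX.pow 2))).trans (le_trans (le_of_eq ?_)
        (hEX 4 (by norm_num)))
      congr 1
      funext K L
      rw [abs_mul, abs_pow]
      ring
    rw [w1, show E2 a (fun K L => X μ K L ^ 2) = 2 * vr a from f2] at q1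
    have b1 : E2 a (fun K L => |X μ K L ^ 2| * |X μ K L| ^ 3) / μ ^ 3 ≤ G :=
      dv0 hr1 hrr hG0 p3 (by norm_num)
    have b2 : E2 a (fun K L => |X μ K L ^ 2| * |X μ K L|) / μ ^ 2 ≤ G :=
      dv0 hr1 hrr hG0 p4 (by norm_num)
    have b3 : E2 a (fun K L => |X μ K L ^ 2|) / μ ^ 2 ≤ G :=
      dv0 hr1 hrr hG0 p5 (by norm_num)
    have b4 : G * (2 * μ) ^ 2 / μ ^ 6 ≤ 4 * G := by
      have h := mu_pow hμ1 (show 2 + 0 ≤ 6 by norm_num)
      rw [pow_zero, div_one] at h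
      calc G * (2 * μ) ^ 2 / μ ^ 6 = 4 * G * (μ ^ 2 / μ ^ 6) := by ring
        _ ≤ 4 * G * 1 := mul_le_mul_of_nonneg_left h (by positivity)
        _ = 4 * G := by ring
    have b5 : |c0 * (2 * vr a)| ≤ 2 * G := by
      rw [abs_mul, abs_of_nonneg (show 0 ≤ 2 * vr a by linarith)]
      calc |c0| * (2 * vr a) ≤ G / μ * (2 * μ) :=
            mul_le_mul hc0 (by linarith) (by linarith) (by positivity)
        _ = 2 * G := by field_simp
    have b6 : |3 / 4 * (2 * k3 a / μ)| ≤ 3 / 2 * C3 := by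
      rw [show 3 / 4 * (2 * k3 a / μ) = 3 / 2 * (k3 a / μ) by ring, abs_mulc (by norm_num),
        abs_dv hμ0]
      refine mul_le_mul_of_nonneg_left ?_ (by norm_num)
      rw [div_le_iff₀ hμ0]
      exact hk3
    have b7 : |15 / 32 * (E2 a (fun K L => X μ K L ^ 2 * X μ K L ^ 2) / μ ^ 2)| ≤ G := by
      rw [abs_mulc (by norm_num), abs_dv (by positivity)]
      linarith
    have hN : |E2 a (fun K L => I (K + L) * X μ K L ^ 2) / Z0 - 2 * vr a| ≤
        3 * G ^ 2 + 7 * G + 3 / 2 * C3 := by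
      have e1 : E2 a (fun K L => I (K + L) * X μ K L ^ 2) / Z0 - 2 * vr a =
          (E2 a (fun K L => I (K + L) * X μ K L ^ 2) / Z0 - ((1 + c0) * (2 * vr a) -
            3 / 4 * (2 * k3 a / μ) +
            15 / 32 * (E2 a (fun K L => X μ K L ^ 2 * X μ K L ^ 2) / μ ^ 2))) +
            (c0 * (2 * vr a) - 3 / 4 * (2 * k3 a / μ) +
              15 / 32 * (E2 a (fun K L => X μ K L ^ 2 * X μ K L ^ 2) / μ ^ 2)) := by ring
      rw [e1]
      refine (abs_add_le _ _).trans ?_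
      have e2 := mul_le_mul_of_nonneg_left (add_le_add (add_le_add b1 b2) b3) hG0
      have e3 := q1.trans (add_le_add e2 b4)
      have e4 : |c0 * (2 * vr a) - 3 / 4 * (2 * k3 a / μ) +
          15 / 32 * (E2 a (fun K L => X μ K L ^ 2 * X μ K L ^ 2) / μ ^ 2)| ≤
          2 * G + 3 / 2 * C3 + G :=
        (abs_add_le _ _).trans (add_le_add ((abs_sub _ _).trans (add_le_add b5 b6)) b7)
      nlinarith
    have hfin := Ew_near hZ (by linarith) hZ0 hN
    have e5 : |2 * vr a| * (G / μ) ≤ 2 * G := by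
      rw [abs_of_nonneg (show 0 ≤ 2 * vr a by linarith)]
      calc 2 * vr a * (G / μ) ≤ 2 * μ * (G / μ) :=
            mul_le_mul_of_nonneg_right (by linarith) (by positivity)
        _ = 2 * G := by field_simp
    have e6 : |Ew a (fun K L => X μ K L ^ 2) - 2 * vr a| ≤
        2 * (3 * G ^ 2 + 7 * G + 3 / 2 * C3 + 2 * G) := by
      refine hfin.trans ?_
      linarith
    refine e6.trans ?_
    have : 0 ≤ 2 * (3 * G ^ 2 + 2 * G + C3 + 3 / 2 * G) := by positivity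
    linarith
  · -- third moment
    obtain ⟨p1, p2, p3, p4, p5⟩ := herr 3 (by norm_num) (by norm_num)
    obtain ⟨q1, _⟩ := hexp (fun K L => X μ K L ^ 3) ((2 * μ) ^ 3) p1 (by positivity) p2
    have w1 : |E2 a (fun K L => X μ K L * X μ K L ^ 3)| / μ ^ 1 ≤ G * μ := by
      refine dv1 (p := 4) hr1 hrr hG0 ?_ (by norm_num)
      refine (ham.abs_E2_le (hX.mul (hX.pow 3))).trans (le_trans (le_of_eq ?_)
        (hEX 4 (by norm_num)))
      congr 1
      funext K L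
      rw [abs_mul, abs_pow]
      ring
    have w2 : |E2 a (fun K L => X μ K L ^ 2 * X μ K L ^ 3)| / μ ^ 2 ≤ G * μ := by
      refine dv1 (p := 5) hr1 hrr hG0 ?_ (by norm_num)
      refine (ham.abs_E2_le ((hX.pow 2).mul (hX.pow 3))).trans (le_trans (le_of_eq ?_)
        (hEX 5 (by norm_num)))
      congr 1
      funext K L
      rw [abs_mul, abs_pow, abs_pow]
      ring
    rw [pow_one] at w1
    rw [show E2 a (fun K L => X μ K L ^ 3) = 2 * k3 a from f3] at q1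
    have b1 : E2 a (fun K L => |X μ K L ^ 3| * |X μ K L| ^ 3) / μ ^ 3 ≤ G :=
      dv0 hr1 hrr hG0 p3 (by norm_num)
    have b2 : E2 a (fun K L => |X μ K L ^ 3| * |X μ K L|) / μ ^ 2 ≤ G :=
      dv0 hr1 hrr hG0 p4 (by norm_num)
    have b3 : E2 a (fun K L => |X μ K L ^ 3|) / μ ^ 2 ≤ G :=
      dv0 hr1 hrr hG0 p5 (by norm_num)
    have b4 : G * (2 * μ) ^ 3 / μ ^ 6 ≤ 8 * G := by
      have h := mu_pow hμ1 (show 3 + 0 ≤ 6 by norm_num)
      rw [pow_zero, div_one] at h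
      calc G * (2 * μ) ^ 3 / μ ^ 6 = 8 * G * (μ ^ 3 / μ ^ 6) := by ring
        _ ≤ 8 * G * 1 := mul_le_mul_of_nonneg_left h (by positivity)
        _ = 8 * G := by ring
    have b5 : |c0 * (2 * k3 a)| ≤ 2 * C3 * G := by
      rw [abs_mul, abs_mul, abs_two]
      calc |c0| * (2 * |k3 a|) ≤ G / μ * (2 * (C3 * μ)) :=
            mul_le_mul hc0 (by linarith) (by positivity) (by positivity)
        _ = 2 * C3 * G := by field_simp
    have b6 : |3 / 4 * (E2 a (fun K L => X μ K L * X μ K L ^ 3) / μ)| ≤ G * μ := by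
      rw [abs_mulc (by norm_num), abs_dv hμ0]
      have : 0 ≤ |E2 a (fun K L => X μ K L * X μ K L ^ 3)| / μ := by positivity
      linarith
    have b7 : |15 / 32 * (E2 a (fun K L => X μ K L ^ 2 * X μ K L ^ 3) / μ ^ 2)| ≤ G * μ := by
      rw [abs_mulc (by norm_num), abs_dv (by positivity)]
      have : 0 ≤ |E2 a (fun K L => X μ K L ^ 2 * X μ K L ^ 3)| / μ ^ 2 := by positivity
      linarith
    have hN : |E2 a (fun K L => I (K + L) * X μ K L ^ 3) / Z0 - 2 * k3 a| ≤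
        3 * G ^ 2 + 8 * G + 2 * C3 * G + 2 * (G * μ) := by
      have e1 : E2 a (fun K L => I (K + L) * X μ K L ^ 3) / Z0 - 2 * k3 a =
          (E2 a (fun K L => I (K + L) * X μ K L ^ 3) / Z0 - ((1 + c0) * (2 * k3 a) -
            3 / 4 * (E2 a (fun K L => X μ K L * X μ K L ^ 3) / μ) +
            15 / 32 * (E2 a (fun K L => X μ K L ^ 2 * X μ K L ^ 3) / μ ^ 2))) +
            (c0 * (2 * k3 a) - 3 / 4 * (E2 a (fun K L => X μ K L * X μ K L ^ 3) / μ) +
              15 / 32 * (E2 a (fun K L => X μ K L ^ 2 * X μ K L ^ 3) / μ ^ 2)) := by ring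
      rw [e1]
      refine (abs_add_le _ _).trans ?_
      have e2 := mul_le_mul_of_nonneg_left (add_le_add (add_le_add b1 b2) b3) hG0
      have e3 := q1.trans (add_le_add e2 b4)
      have e4 : |c0 * (2 * k3 a) - 3 / 4 * (E2 a (fun K L => X μ K L * X μ K L ^ 3) / μ) +
          15 / 32 * (E2 a (fun K L => X μ K L ^ 2 * X μ K L ^ 3) / μ ^ 2)| ≤
          2 * C3 * G + G * μ + G * μ :=
        (abs_add_le _ _).trans (add_le_add ((abs_sub _ _).trans (add_le_add b5 b6)) b7)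
      nlinarith
    have hfin := Ew_near hZ (by linarith) hZ0 hN
    have e5 : |2 * k3 a| * (G / μ) ≤ 2 * C3 * G := by
      rw [abs_mul, abs_two]
      calc 2 * |k3 a| * (G / μ) ≤ 2 * (C3 * μ) * (G / μ) :=
            mul_le_mul_of_nonneg_right (by linarith) (by positivity)
        _ = 2 * C3 * G := by field_simp
    have e6 : |Ew a (fun K L => X μ K L ^ 3) - 2 * k3 a| ≤
        2 * (3 * G ^ 2 + 8 * G + 2 * C3 * G + 2 * (G * μ) + 2 * C3 * G) := by
      refine hfin.trans ?_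
      linarith
    refine e6.trans ?_
    nlinarith
  · -- fourth moment
    obtain ⟨p1, p2, p3, p4, p5⟩ := herr 4 (by norm_num) le_rfl
    obtain ⟨_, q1⟩ := hexp (fun K L => X μ K L ^ 4) ((2 * μ) ^ 4) p1 (by positivity) p2
    have b4 : G * (2 * μ) ^ 4 / μ ^ 6 ≤ 16 * G := by
      have h := mu_pow hμ1 (show 4 + 0 ≤ 6 by norm_num)
      rw [pow_zero, div_one] at h
      calc G * (2 * μ) ^ 4 / μ ^ 6 = 16 * G * (μ ^ 4 / μ ^ 6) := by ring
        _ ≤ 16 * G * 1 := mul_le_mul_of_nonneg_left h (by positivity)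
        _ = 16 * G := by ring
    have b5 : E2 a (fun K L => |X μ K L ^ 4|) ≤ G * μ ^ 2 := by
      refine p5.trans (le_of_eq ?_)
      rw [← hrr]
      ring
    have hu : E2 a (fun K L => I (K + L) * |X μ K L ^ 4|) / Z0 ≤ 21 * G * μ ^ 2 := by
      refine q1.trans ?_
      have h1 : 16 * G ≤ 16 * G * μ ^ 2 := by
        have : 1 ≤ μ ^ 2 := one_le_pow₀ hμ1
        nlinarith
      nlinarith
    have hfin := Ew_up hZ hd hZ0 hu (by positivity)
    have e1 : (fun K L : ℕ => I (K + L) * |X μ K L ^ 4|) = fun K L => I (K + L) * X μ K L ^ 4 := by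
      funext K L
      rw [abs_of_nonneg (by positivity)]
    rw [e1] at hfin
    refine (show Ew a (fun K L => X μ K L ^ 4) ≤ 20 / 19 * (21 * G * μ ^ 2) from hfin).trans ?_
    have h2 : 0 ≤ G * μ ^ 2 := by positivity
    have h3 : 0 ≤ μ ^ 2 := by positivity
    nlinarith

end Pool.Agent.Q61.MK
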