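import Pool.Agent.Q61.MK.EXP3

/-! Job EXP2 of the project MK of helper291. -/

set_option autoImplicit false

namespace Pool.Agent.Q61.MK

open Pool.Agent.Q291.MK

theorem g_id {μ : ℝ} (hμ : 0 < μ) (K L : ℕ) : g K L =
    1 / (2 * μ) * ((K : ℝ) - L) ^ 2 - 1 / (4 * μ ^ 2) * (X μ K L * ((K : ℝ) - L) ^ 2) -
      1 / (8 * μ ^ 2) * ((K : ℝ) - L) ^ 2 +
      1 / (4 * μ ^ 2) * (g K L * (X μ K L + 1 / 2) ^ 2) := by
  unfold g X
  have h1 : (0 : ℝ) ≤ K := Nat.cast_nonneg K
  have h2 : (0 : ℝ) ≤ L := Nat.cast_nonneg L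
  have h3 : (K : ℝ) + L + 1 / 2 ≠ 0 := by positivity
  field_simp
  ring

theorem Xg_id {μ : ℝ} (hμ : 0 < μ) (K L : ℕ) : X μ K L * g K L =
    1 / (2 * μ) * (X μ K L * ((K : ℝ) - L) ^ 2) -
      1 / (2 * μ) * (X μ K L ^ 2 * g K L) - 1 / (4 * μ) * (X μ K L * g K L) := by
  unfold g X
  have h1 : (0 : ℝ) ≤ K := Nat.cast_nonneg K
  have h2 : (0 : ℝ) ≤ L := Nat.cast_nonneg L
  have h3 : (K : ℝ) + L + 1 / 2 ≠ 0 := by positivity
  field_simp
  ring

theorem t_EXP2 (hM : P_EXPM) (hA : P_EXPA) : P_EXP2 := by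
  intro C8 hC8
  obtain ⟨G, hG1, heng⟩ := eng hM hA C8 hC8
  refine ⟨1, by norm_num, ?_⟩
  intro C3 hC3
  refine ⟨2 * (2 * C3 + 1 + 1300 * G + 1040 * G ^ 2) + 2 * (4 * C3 + 3000 * G + 780 * G ^ 2),
    10 + 20 * G, by positivity, by linarith, ?_⟩
  intro a ha hμM
  have hμ10 : 10 ≤ mean a := by linarith
  have hμG : 20 * G ≤ mean a := by linarith
  obtain ⟨hmom, htail, Z0, c0, hZ0, hc0, hZ, hexp⟩ := heng C3 a ha hμ10 hμG
  obtain ⟨m1, m2, m3, m4, m5, m6, m7⟩ := hM C3 C8 a ha (by linarith)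
  have ham := ha.toAM
  have hvr := ha.vr_le
  have hk3 := ha.k3_le
  obtain ⟨μ, hμe⟩ : ∃ μ, μ = mean a := ⟨_, rfl⟩
  simp only [← hμe] at hμ10 hμG hmom htail hc0 hZ hexp m3 m4 m5 m7 hvr hk3 hμM ⊢
  have hμ0 : 0 < μ := by linarith
  have hμ1 : 1 ≤ μ := by linarith
  have hr1 : 1 ≤ √μ := by
    rw [Real.one_le_sqrt]
    linarith
  have hrr : √μ ^ 2 = μ := Real.sq_sqrt hμ0.le
  obtain ⟨r, hr⟩ : ∃ r, r = √μ := ⟨_, rfl⟩
  rw [← hr] at hr1 hrr hmom
  have hrμ : r ≤ μ := by
    rw [← hrr]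
    nlinarith
  have hX := PB2_X μ
  have hG0 : 0 ≤ G := by linarith
  have hC30 : 0 ≤ C3 := by linarith
  have hd : G / μ ≤ 1 / 20 := by
    rw [div_le_iff₀ hμ0]
    linarith
  have hgm := g_mom ham hμ1 hr1 hrr hG0 hmom htail
  have hY : PB2 (fun K L : ℕ => ((K : ℝ) - L) ^ 2) := ((PB2.fst PB.id).sub (PB2.snd PB.id)).pow 2
  have hXY : PB2 (fun K L : ℕ => X μ K L * ((K : ℝ) - L) ^ 2) := hX.mul hY
  have m7' : E2 a (fun K L => X μ K L * ((K : ℝ) - L) ^ 2) = 2 * k3 a := m7
  have hvr0 : 0 ≤ vr a := by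
    have h1 : 0 ≤ E2 a (fun K L => ((K : ℝ) - L) ^ 2) := by
      have := ham.E2_mono (PB2.const 0) hY fun K L => sq_nonneg ((K : ℝ) - L)
      rwa [ham.E2_cst] at this
    rw [m6] at h1
    linarith
  -- moments of g
  have G0 : E2 a g ≤ 260 * G := by
    have := hgm 0 1 (by norm_num)
    simpa only [pow_zero, one_mul, pow_one, mul_one] using this
  have G0n : 0 ≤ E2 a g := by
    have := ham.E2_mono (PB2.const 0) PB2_g fun K L => g_nonneg K L
    rwa [ham.E2_cst] at this
  have G1 : E2 a (fun K L => |X μ K L| * g K L) ≤ 260 * G * r := by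
    have := hgm 1 1 (by norm_num)
    simpa only [pow_one] using this
  have G2 : E2 a (fun K L => X μ K L ^ 2 * g K L) ≤ 260 * G * μ := by
    have := hgm 2 1 (by norm_num)
    simpa only [pow_one, sq_abs, hrr] using this
  have G3 : E2 a (fun K L => |X μ K L| ^ 3 * g K L) ≤ 260 * G * r ^ 3 := by
    have := hgm 3 1 (by norm_num)
    simpa only [pow_one] using this
  have G4 : E2 a (fun K L => |X μ K L| ^ 4 * g K L) ≤ 260 * G * r ^ 4 := by
    have := hgm 4 1 (by norm_num)
    simpa only [pow_one] using this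
  have G2n : 0 ≤ E2 a (fun K L => X μ K L ^ 2 * g K L) := by
    have := ham.E2_mono (PB2.const 0) ((hX.pow 2).mul PB2_g) fun K L => by
      have := g_nonneg K L
      positivity
    rwa [ham.E2_cst] at this
  have hPg := PB2_g
  have hPXg : PB2 (fun K L => X μ K L * g K L) := hX.mul hPg
  have hPX2g : PB2 (fun K L => X μ K L ^ 2 * g K L) := (hX.pow 2).mul hPg
  -- E2 of X g
  have aXg : |E2 a (fun K L => X μ K L * g K L)| ≤ C3 + 260 * G := by
    have e1 : E2 a (fun K L => X μ K L * g K L) = 1 / (2 * μ) * (2 * k3 a) -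
        1 / (2 * μ) * E2 a (fun K L => X μ K L ^ 2 * g K L) -
        1 / (4 * μ) * E2 a (fun K L => X μ K L * g K L) := by
      have e2 : (fun K L : ℕ => X μ K L * g K L) = fun K L =>
          (1 / (2 * μ) * (X μ K L * ((K : ℝ) - L) ^ 2) -
            1 / (2 * μ) * (X μ K L ^ 2 * g K L)) - 1 / (4 * μ) * (X μ K L * g K L) := by
        funext K L
        exact Xg_id hμ0 K L
      conv_lhs => rw [e2]
      rw [ham.E2_sub (((PB2.const _).mul hXY).sub ((PB2.const _).mul hPX2g))
        ((PB2.const _).mul hPXg), ham.E2_sub ((PB2.const _).mul hXY) ((PB2.const _).mul hPX2g),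
        E2_const_mul, E2_const_mul, E2_const_mul, m7']
    have e3 : |E2 a (fun K L => X μ K L * g K L)| ≤ 260 * G * r := by
      refine (ham.abs_E2_le hPXg).trans (le_trans (le_of_eq ?_) G1)
      congr 1
      funext K L
      rw [abs_mul, abs_of_nonneg (g_nonneg K L)]
    rw [e1]
    have f1 : |1 / (2 * μ) * (2 * k3 a)| ≤ C3 := by
      rw [abs_mulc (by positivity), abs_mulc (by norm_num)]
      rw [one_div_mul_eq_div, div_le_iff₀ (by positivity)]
      linarith
    have f2 : |1 / (2 * μ) * E2 a (fun K L => X μ K L ^ 2 * g K L)| ≤ 130 * G := by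
      rw [abs_mulc (by positivity), abs_of_nonneg G2n, one_div_mul_eq_div,
        div_le_iff₀ (by positivity)]
      linarith
    have f3 : |1 / (4 * μ) * E2 a (fun K L => X μ K L * g K L)| ≤ 130 * G := by
      rw [abs_mulc (by positivity), one_div_mul_eq_div, div_le_iff₀ (by positivity)]
      have : G * r ≤ G * μ := mul_le_mul_of_nonneg_left hrμ hG0
      linarith
    have f4 := (abs_sub (1 / (2 * μ) * (2 * k3 a) -
      1 / (2 * μ) * E2 a (fun K L => X μ K L ^ 2 * g K L))
      (1 / (4 * μ) * E2 a (fun K L => X μ K L * g K L)))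
    have f5 := abs_sub (1 / (2 * μ) * (2 * k3 a))
      (1 / (2 * μ) * E2 a (fun K L => X μ K L ^ 2 * g K L))
    linarith
  -- E2 of g
  have aG : |E2 a g - vr a / μ| ≤ (C3 + 1 + 163 * G) / μ := by
    have hPgw : PB2 (fun K L => g K L * (X μ K L + 1 / 2) ^ 2) :=
      hPg.mul ((hX.add (PB2.const (1 / 2))).pow 2)
    have e1 : E2 a g = 1 / (2 * μ) * (2 * vr a) - 1 / (4 * μ ^ 2) * (2 * k3 a) -
        1 / (8 * μ ^ 2) * (2 * vr a) +
        1 / (4 * μ ^ 2) * E2 a (fun K L => g K L * (X μ K L + 1 / 2) ^ 2) := by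
      have e2 : g = fun K L : ℕ => ((1 / (2 * μ) * ((K : ℝ) - L) ^ 2 -
          1 / (4 * μ ^ 2) * (X μ K L * ((K : ℝ) - L) ^ 2)) -
          1 / (8 * μ ^ 2) * ((K : ℝ) - L) ^ 2) +
          1 / (4 * μ ^ 2) * (g K L * (X μ K L + 1 / 2) ^ 2) := by
        funext K L
        exact g_id hμ0 K L
      conv_lhs => rw [e2]
      rw [ham.E2_add ((((PB2.const _).mul hY).sub ((PB2.const _).mul hXY)).sub
        ((PB2.const _).mul hY)) ((PB2.const _).mul hPgw),
        ham.E2_sub (((PB2.const _).mul hY).sub ((PB2.const _).mul hXY)) ((PB2.const _).mul hY),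
        ham.E2_sub ((PB2.const _).mul hY) ((PB2.const _).mul hXY),
        E2_const_mul, E2_const_mul, E2_const_mul, E2_const_mul, m7', m6]
    have e3 : E2 a (fun K L => g K L * (X μ K L + 1 / 2) ^ 2) ≤ 652 * G * μ := by
      have h1 := ham.E2_mono hPgw (((PB2.const 2).mul hPX2g).add ((PB2.const (1 / 2)).mul hPg))
        fun K L => by
          have := g_nonneg K L
          nlinarith [mul_nonneg this (sq_nonneg (X μ K L - 1 / 2))]
      rw [ham.E2_add ((PB2.const 2).mul hPX2g) ((PB2.const (1 / 2)).mul hPg), E2_const_mul,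
        E2_const_mul] at h1
      have h2 : G ≤ G * μ := le_mul_of_one_le_right hG0 hμ1
      linarith
    have e3n : 0 ≤ E2 a (fun K L => g K L * (X μ K L + 1 / 2) ^ 2) := by
      have := ham.E2_mono (PB2.const 0) hPgw fun K L => by
        have := g_nonneg K L
        positivity
      rwa [ham.E2_cst] at this
    have e4 : E2 a g - vr a / μ = (-(1 / (4 * μ ^ 2) * (2 * k3 a)) -
        1 / (8 * μ ^ 2) * (2 * vr a)) +
        1 / (4 * μ ^ 2) * E2 a (fun K L => g K L * (X μ K L + 1 / 2) ^ 2) := by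
      rw [e1]
      field_simp
      ring
    rw [e4]
    have f1 : |-(1 / (4 * μ ^ 2) * (2 * k3 a))| ≤ C3 / μ := by
      rw [abs_neg, abs_mulc (by positivity), abs_mulc (by norm_num), one_div_mul_eq_div,
        div_le_div_iff₀ (by positivity) hμ0]
      nlinarith [abs_nonneg (k3 a)]
    have f2 : |1 / (8 * μ ^ 2) * (2 * vr a)| ≤ 1 / μ := by
      rw [abs_of_nonneg (by positivity), one_div_mul_eq_div, div_le_div_iff₀ (by positivity) hμ0]
      nlinarith
    have f3 : |1 / (4 * μ ^ 2) * E2 a (fun K L => g K L * (X μ K L + 1 / 2) ^ 2)| ≤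
        163 * G / μ := by
      rw [abs_mulc (by positivity), abs_of_nonneg e3n, one_div_mul_eq_div,
        div_le_div_iff₀ (by positivity) hμ0]
      nlinarith
    have f4 := abs_add_le (-(1 / (4 * μ ^ 2) * (2 * k3 a)) - 1 / (8 * μ ^ 2) * (2 * vr a))
      (1 / (4 * μ ^ 2) * E2 a (fun K L => g K L * (X μ K L + 1 / 2) ^ 2))
    have f5 := abs_sub (-(1 / (4 * μ ^ 2) * (2 * k3 a))) (1 / (8 * μ ^ 2) * (2 * vr a))
    have f6 : (C3 + 1 + 163 * G) / μ = C3 / μ + 1 / μ + 163 * G / μ := by ring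
    linarith
  refine ⟨?_, ?_⟩
  · obtain ⟨q1, _⟩ := hexp g μ hPg hμ0.le (fun K L h => by
      rw [abs_of_nonneg (g_nonneg K L)]
      exact bad_g h)
    have b1 : E2 a (fun K L => |g K L| * |X μ K L| ^ 3) / μ ^ 3 ≤ 260 * G / μ := by
      refine dv (p := 3) hr1 hrr (by positivity) ?_ (by norm_num)
      refine le_trans (le_of_eq ?_) G3
      congr 1
      funext K L
      rw [abs_of_nonneg (g_nonneg K L)]
      ring
    have b2 : E2 a (fun K L => |g K L| * |X μ K L|) / μ ^ 2 ≤ 260 * G / μ := by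
      refine dv (p := 1) hr1 hrr (by positivity) ?_ (by norm_num)
      rw [pow_one]
      refine le_trans (le_of_eq ?_) G1
      congr 1
      funext K L
      rw [abs_of_nonneg (g_nonneg K L)]
      ring
    have b3 : E2 a (fun K L => |g K L|) / μ ^ 2 ≤ 260 * G / μ := by
      refine dv (p := 0) hr1 hrr (by positivity) ?_ (by norm_num)
      rw [pow_zero, mul_one]
      refine le_trans (le_of_eq ?_) G0
      congr 1
      funext K L
      rw [abs_of_nonneg (g_nonneg K L)]
    have b4 : G * μ / μ ^ 6 ≤ G / μ := by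
      rw [div_le_div_iff₀ (by positivity) hμ0]
      have : μ ^ 2 ≤ μ ^ 6 := pow_le_pow_right₀ hμ1 (by norm_num)
      calc G * μ * μ = G * μ ^ 2 := by ring
        _ ≤ G * μ ^ 6 := mul_le_mul_of_nonneg_left this hG0
    have b5 : |c0 * E2 a g| ≤ 260 * G ^ 2 / μ := by
      rw [abs_mul, abs_of_nonneg G0n]
      calc |c0| * E2 a g ≤ G / μ * (260 * G) := mul_le_mul hc0 G0 G0n (by positivity)
        _ = 260 * G ^ 2 / μ := by ring
    have b6 : |3 / 4 * (E2 a (fun K L => X μ K L * g K L) / μ)| ≤ (C3 + 260 * G) / μ := by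
      rw [abs_mulc (by norm_num), abs_dv hμ0]
      have := div_le_div_of_nonneg_right aXg hμ0.le
      have h2 : 0 ≤ |E2 a (fun K L => X μ K L * g K L)| / μ := by positivity
      linarith
    have b7 : |15 / 32 * (E2 a (fun K L => X μ K L ^ 2 * g K L) / μ ^ 2)| ≤ 260 * G / μ := by
      rw [abs_of_nonneg (by positivity)]
      have h1 : E2 a (fun K L => X μ K L ^ 2 * g K L) / μ ^ 2 ≤ 260 * G / μ := by
        rw [div_le_div_iff₀ (by positivity) hμ0]
        nlinarith
      have h2 : 0 ≤ E2 a (fun K L => X μ K L ^ 2 * g K L) / μ ^ 2 := by positivity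
      linarith
    have hN : |E2 a (fun K L => I (K + L) * g K L) / Z0 - vr a / μ| ≤
        (2 * C3 + 1 + 1299 * G + 1040 * G ^ 2) / μ := by
      have e1 : E2 a (fun K L => I (K + L) * g K L) / Z0 - vr a / μ =
          (E2 a (fun K L => I (K + L) * g K L) / Z0 - ((1 + c0) * E2 a g -
            3 / 4 * (E2 a (fun K L => X μ K L * g K L) / μ) +
            15 / 32 * (E2 a (fun K L => X μ K L ^ 2 * g K L) / μ ^ 2))) +
            ((E2 a g - vr a / μ) + (c0 * E2 a g - 3 / 4 * (E2 a (fun K L => X μ K L * g K L) / μ) +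
            15 / 32 * (E2 a (fun K L => X μ K L ^ 2 * g K L) / μ ^ 2))) := by ring
      rw [e1]
      refine (abs_add_le _ _).trans ?_
      have e2 := mul_le_mul_of_nonneg_left (add_le_add (add_le_add b1 b2) b3) hG0
      have e3 := q1.trans (add_le_add e2 b4)
      have e4 := abs_add_le (E2 a g - vr a / μ)
        (c0 * E2 a g - 3 / 4 * (E2 a (fun K L => X μ K L * g K L) / μ) +
            15 / 32 * (E2 a (fun K L => X μ K L ^ 2 * g K L) / μ ^ 2))
      have e5 := abs_add_le (c0 * E2 a g - 3 / 4 * (E2 a (fun K L => X μ K L * g K L) / μ))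
        (15 / 32 * (E2 a (fun K L => X μ K L ^ 2 * g K L) / μ ^ 2))
      have e6 := abs_sub (c0 * E2 a g) (3 / 4 * (E2 a (fun K L => X μ K L * g K L) / μ))
      have e7 : G * (260 * G / μ + 260 * G / μ + 260 * G / μ) + G / μ +
          ((C3 + 1 + 163 * G) / μ + (260 * G ^ 2 / μ + (C3 + 260 * G) / μ + 260 * G / μ)) =
          (2 * C3 + 1 + 684 * G + 1040 * G ^ 2) / μ := by ring
      have e8 : (2 * C3 + 1 + 684 * G + 1040 * G ^ 2) / μ ≤
          (2 * C3 + 1 + 1299 * G + 1040 * G ^ 2) / μ :=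
        div_le_div_of_nonneg_right (by linarith) hμ0.le
      linarith
    have hfin := Ew_near hZ (by linarith) hZ0 hN
    have hm : |vr a / μ| ≤ 1 := by
      rw [abs_of_nonneg (by positivity), div_le_one hμ0]
      exact hvr
    have e5 : |vr a / μ| * (G / μ) ≤ 1 * (G / μ) := mul_le_mul_of_nonneg_right hm (by positivity)
    refine (show |Ew a g - vr a / μ| ≤ _ from hfin).trans ?_
    have e8 : 2 * ((2 * C3 + 1 + 1299 * G + 1040 * G ^ 2) / μ + 1 * (G / μ)) =
        (2 * (2 * C3 + 1 + 1300 * G + 1040 * G ^ 2)) / μ := by ring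
    have e9 : (2 * (2 * C3 + 1 + 1300 * G + 1040 * G ^ 2)) / μ ≤
        (2 * (2 * C3 + 1 + 1300 * G + 1040 * G ^ 2) + 2 * (4 * C3 + 3000 * G + 780 * G ^ 2)) / μ := by
      refine div_le_div_of_nonneg_right ?_ hμ0.le
      have : 0 ≤ 2 * (4 * C3 + 3000 * G + 780 * G ^ 2) := by positivity
      linarith
    linarith
  · obtain ⟨q1, _⟩ := hexp (fun K L => X μ K L * g K L) (2 * μ * μ) hPXg (by positivity)
      (fun K L h => by
        rw [abs_mul, abs_of_nonneg (g_nonneg K L)]
        exact mul_le_mul (bad_X h) (bad_g h) (g_nonneg K L) (by positivity))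
    have habs : ∀ K L, |X μ K L * g K L| = |X μ K L| * g K L := fun K L => by
      rw [abs_mul, abs_of_nonneg (g_nonneg K L)]
    have b1 : E2 a (fun K L => |X μ K L * g K L| * |X μ K L| ^ 3) / μ ^ 3 ≤ 260 * G := by
      refine dv0 (p := 4) hr1 hrr (by positivity) ?_ (by norm_num)
      refine le_trans (le_of_eq ?_) G4
      congr 1
      funext K L
      rw [habs]
      ring
    have b2 : E2 a (fun K L => |X μ K L * g K L| * |X μ K L|) / μ ^ 2 ≤ 260 * G := by
      refine dv0 (p := 2) hr1 hrr (by positivity) ?_ (by norm_num)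
      refine le_trans (le_of_eq ?_) (G2.trans (by rw [hrr]))
      congr 1
      funext K L
      rw [habs, ← sq_abs]
      ring
    have b3 : E2 a (fun K L => |X μ K L * g K L|) / μ ^ 2 ≤ 260 * G := by
      refine dv0 (p := 1) hr1 hrr (by positivity) ?_ (by norm_num)
      rw [pow_one]
      refine le_trans (le_of_eq ?_) G1
      congr 1
      funext K L
      rw [habs]
    have b4 : G * (2 * μ * μ) / μ ^ 6 ≤ 2 * G := by
      rw [div_le_iff₀ (by positivity)]
      have : μ ^ 2 ≤ μ ^ 6 := pow_le_pow_right₀ hμ1 (by norm_num)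
      calc G * (2 * μ * μ) = 2 * G * μ ^ 2 := by ring
        _ ≤ 2 * G * μ ^ 6 := mul_le_mul_of_nonneg_left this (by positivity)
    have hc01 : |1 + c0| ≤ 2 := by
      refine (abs_add_le _ _).trans ?_
      rw [abs_one]
      linarith
    have b5 : |(1 + c0) * E2 a (fun K L => X μ K L * g K L)| ≤ 2 * (C3 + 260 * G) := by
      rw [abs_mul]
      exact mul_le_mul hc01 aXg (abs_nonneg _) (by norm_num)
    have w1 : E2 a (fun K L => X μ K L * (X μ K L * g K L)) =
        E2 a (fun K L => X μ K L ^ 2 * g K L) := by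
      congr 1
      funext K L
      ring
    have b6 : |3 / 4 * (E2 a (fun K L => X μ K L * (X μ K L * g K L)) / μ)| ≤ 260 * G := by
      rw [w1, abs_of_nonneg (by positivity)]
      have : E2 a (fun K L => X μ K L ^ 2 * g K L) / μ ≤ 260 * G := by
        rw [div_le_iff₀ hμ0]
        exact G2
      have h2 : 0 ≤ E2 a (fun K L => X μ K L ^ 2 * g K L) / μ := by positivity
      linarith
    have b7 : |15 / 32 * (E2 a (fun K L => X μ K L ^ 2 * (X μ K L * g K L)) / μ ^ 2)| ≤
        260 * G := by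
      rw [abs_mulc (by norm_num), abs_dv (by positivity)]
      have h1 : |E2 a (fun K L => X μ K L ^ 2 * (X μ K L * g K L))| / μ ^ 2 ≤ 260 * G := by
        refine dv0 (p := 3) hr1 hrr (by positivity) ?_ (by norm_num)
        refine (ham.abs_E2_le ((hX.pow 2).mul hPXg)).trans (le_trans (le_of_eq ?_) G3)
        congr 1
        funext K L
        rw [abs_mul, habs, abs_pow]
        ring
      have h2 : 0 ≤ |E2 a (fun K L => X μ K L ^ 2 * (X μ K L * g K L))| / μ ^ 2 := by positivity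
      linarith
    have hN : |E2 a (fun K L => I (K + L) * (X μ K L * g K L)) / Z0 - 0| ≤
        2 * C3 + 1042 * G + 780 * G ^ 2 := by
      have e1 : E2 a (fun K L => I (K + L) * (X μ K L * g K L)) / Z0 - 0 =
          (E2 a (fun K L => I (K + L) * (X μ K L * g K L)) / Z0 -
            ((1 + c0) * E2 a (fun K L => X μ K L * g K L) -
            3 / 4 * (E2 a (fun K L => X μ K L * (X μ K L * g K L)) / μ) +
            15 / 32 * (E2 a (fun K L => X μ K L ^ 2 * (X μ K L * g K L)) / μ ^ 2))) +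
            ((1 + c0) * E2 a (fun K L => X μ K L * g K L) -
            3 / 4 * (E2 a (fun K L => X μ K L * (X μ K L * g K L)) / μ) +
            15 / 32 * (E2 a (fun K L => X μ K L ^ 2 * (X μ K L * g K L)) / μ ^ 2)) := by ring
      rw [e1]
      refine (abs_add_le _ _).trans ?_
      have e2 := mul_le_mul_of_nonneg_left (add_le_add (add_le_add b1 b2) b3) hG0
      have e3 := q1.trans (add_le_add e2 b4)
      have e5 := abs_add_le ((1 + c0) * E2 a (fun K L => X μ K L * g K L) -
            3 / 4 * (E2 a (fun K L => X μ K L * (X μ K L * g K L)) / μ))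
        (15 / 32 * (E2 a (fun K L => X μ K L ^ 2 * (X μ K L * g K L)) / μ ^ 2))
      have e6 := abs_sub ((1 + c0) * E2 a (fun K L => X μ K L * g K L))
        (3 / 4 * (E2 a (fun K L => X μ K L * (X μ K L * g K L)) / μ))
      nlinarith
    have hfin := Ew_near hZ (by linarith) hZ0 hN
    rw [abs_zero, zero_mul, add_zero, sub_zero] at hfin
    refine (show |Ew a (fun K L => X μ K L * g K L)| ≤ _ from hfin).trans ?_
    have h1 : 0 ≤ G ^ 2 := by positivity
    linarith

end Pool.Agent.Q61.MK
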