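import Pool.Agent.Q61.MK.EXP1

/-! Job EXP3 of the project MK of helper291. -/

set_option autoImplicit false

namespace Pool.Agent.Q61.MK

open Pool.Agent.Q291.MK

theorem g_mom {a : ℕ → ℝ} (ha : AM a) {μ G r : ℝ} (hμ1 : 1 ≤ μ) (hr1 : 1 ≤ r) (hrr : r ^ 2 = μ)
    (hG : 0 ≤ G)
    (hmom : ∀ p : ℕ, p ≤ 8 → E2 a (fun K L => U μ K L ^ p) ≤ G * r ^ p)
    (htail : ∀ (φ : ℕ → ℕ → ℝ) (B : ℝ), PB2 φ → 0 ≤ B →
      (∀ K L : ℕ, (K : ℝ) + L < 3 / 4 * μ → |φ K L| ≤ B) →
      E2 a (fun K L => if (K : ℝ) + L < 3 / 4 * μ then |φ K L| else 0) ≤ G * B / μ ^ 8)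
    (p q : ℕ) (hpq : p + 2 * q ≤ 8) :
    E2 a (fun K L => |X μ K L| ^ p * g K L ^ q) ≤ 260 * G * r ^ p := by
  have hμ0 : 0 < μ := by linarith
  have hr0 : 0 < r := by linarith
  have hP : PB2 (fun K L => |X μ K L| ^ p * g K L ^ q) := ((PB2_X μ).abs.pow p).mul (PB2_g.pow q)
  have hP1 : PB2 (fun K L => ((4 / 3) ^ q / μ ^ q) * U μ K L ^ (p + 2 * q)) :=
    (PB2.const _).mul ((PB2_U μ).pow _)
  have hB : 0 ≤ (2 * μ) ^ p * μ ^ q := by positivity
  have h1 := htail (fun K L => |X μ K L| ^ p * g K L ^ q) ((2 * μ) ^ p * μ ^ q) hP hB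
    (fun K L h => by
      have e1 := g_nonneg K L
      rw [abs_of_nonneg (by positivity)]
      exact mul_le_mul (pow_le_pow_left₀ (abs_nonneg _) (bad_X h) p)
        (pow_le_pow_left₀ e1 (bad_g h) q) (by positivity) (by positivity))
  have h2 := split_le ha hP hP1 (c := 3 / 4 * μ) (fun K L => by
      have := U_nonneg μ K L
      positivity)
    (fun K L h => by
      have e1 := g_nonneg K L
      have e2 := good_g hμ0 h
      have e3 : |X μ K L| ^ p * g K L ^ q ≤ U μ K L ^ p * (4 / 3 * U μ K L ^ 2 / μ) ^ q :=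
        mul_le_mul (XU μ p K L) (pow_le_pow_left₀ e1 e2 q) (by positivity) (by
          have := U_nonneg μ K L
          positivity)
      refine e3.trans (le_of_eq ?_)
      rw [div_pow, mul_pow, ← pow_mul, pow_add]
      ring) h1
  refine h2.trans ?_
  rw [E2_const_mul]
  have h3 : (4 / 3 : ℝ) ^ q ≤ 4 := by
    calc (4 / 3 : ℝ) ^ q ≤ (4 / 3) ^ 4 := pow_le_pow_right₀ (by norm_num) (by omega)
      _ ≤ 4 := by norm_num
  have h4 : (4 / 3 : ℝ) ^ q / μ ^ q * E2 a (fun K L => U μ K L ^ (p + 2 * q)) ≤ 4 * G * r ^ p := by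
    have e1 := hmom (p + 2 * q) hpq
    calc (4 / 3 : ℝ) ^ q / μ ^ q * E2 a (fun K L => U μ K L ^ (p + 2 * q)) ≤
        (4 / 3 : ℝ) ^ q / μ ^ q * (G * r ^ (p + 2 * q)) :=
          mul_le_mul_of_nonneg_left e1 (by positivity)
      _ = (4 / 3 : ℝ) ^ q * (G * r ^ p) := by
          rw [← hrr, pow_add, pow_mul]
          field_simp
      _ ≤ 4 * (G * r ^ p) := mul_le_mul_of_nonneg_right h3 (by positivity)
      _ = 4 * G * r ^ p := by ring
  have h5 : G * ((2 * μ) ^ p * μ ^ q) / μ ^ 8 ≤ 256 * G * r ^ p := by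
    have e1 : (2 : ℝ) ^ p ≤ 256 := by
      calc (2 : ℝ) ^ p ≤ 2 ^ 8 := pow_le_pow_right₀ (by norm_num) (by omega)
        _ = 256 := by norm_num
    have e2 : μ ^ (p + q) ≤ μ ^ 8 := pow_le_pow_right₀ hμ1 (by omega)
    have e3 : 1 ≤ r ^ p := one_le_pow₀ hr1
    rw [div_le_iff₀ (by positivity)]
    calc G * ((2 * μ) ^ p * μ ^ q) = G * (2 ^ p * μ ^ (p + q)) := by
          rw [mul_pow, pow_add]
          ring
      _ ≤ G * (256 * μ ^ 8) :=
          mul_le_mul_of_nonneg_left (mul_le_mul e1 e2 (by positivity) (by norm_num)) hG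
      _ = 256 * G * 1 * μ ^ 8 := by ring
      _ ≤ 256 * G * r ^ p * μ ^ 8 := by
          refine mul_le_mul_of_nonneg_right ?_ (by positivity)
          exact mul_le_mul_of_nonneg_left e3 (by positivity)
  nlinarith

theorem t_EXP3 (hM : P_EXPM) (hA : P_EXPA) : P_EXP3 := by
  intro C8 hC8
  obtain ⟨G, hG1, heng⟩ := eng hM hA C8 hC8
  refine ⟨2000 * G, by positivity, ?_⟩
  intro C3 hC3
  refine ⟨1, 10 + 20 * G, by positivity, by linarith, ?_⟩
  intro a ha hμM
  have hμ10 : 10 ≤ mean a := by linarith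
  have hμG : 20 * G ≤ mean a := by linarith
  obtain ⟨hmom, htail, Z0, c0, hZ0, hc0, hZ, hexp⟩ := heng C3 a ha hμ10 hμG
  have ham := ha.toAM
  obtain ⟨μ, hμe⟩ : ∃ μ, μ = mean a := ⟨_, rfl⟩
  have hm8e : m8 a = E a (fun k => ((k : ℝ) - μ) ^ 8) := by rw [hμe]; rfl
  simp only [← hμe] at hμ10 hμG hmom htail hc0 hZ hexp hμM ⊢
  have hμ0 : 0 < μ := by linarith
  have hμ1 : 1 ≤ μ := by linarith
  have hr1 : 1 ≤ √μ := by
    rw [Real.one_le_sqrt]
    linarith
  have hrr : √μ ^ 2 = μ := Real.sq_sqrt hμ0.le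
  obtain ⟨r, hr⟩ : ∃ r, r = √μ := ⟨_, rfl⟩
  rw [← hr] at hr1 hrr hmom
  have hX := PB2_X μ
  have hG0 : 0 ≤ G := by linarith
  have hd : G / μ ≤ 1 / 20 := by
    rw [div_le_iff₀ hμ0]
    linarith
  have hgm := g_mom ham hμ1 hr1 hrr hG0 hmom htail
  -- the general bound
  have hup : ∀ (φ : ℕ → ℕ → ℝ) (B e : ℝ), PB2 φ → 0 ≤ B → (∀ K L, 0 ≤ φ K L) →
      (∀ K L : ℕ, (K : ℝ) + L < 3 / 4 * μ → φ K L ≤ B) → E2 a φ ≤ e → 0 ≤ e →
      Ew a φ ≤ 20 / 19 * (9 / 2 * e + G * B / μ ^ 6) := by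
    intro φ B e hφ hB hpos hbad he he0
    obtain ⟨_, q1⟩ := hexp φ B hφ hB (fun K L h => by
      rw [abs_of_nonneg (hpos K L)]
      exact hbad K L h)
    have e1 : (fun K L : ℕ => I (K + L) * |φ K L|) = fun K L => I (K + L) * φ K L := by
      funext K L
      rw [abs_of_nonneg (hpos K L)]
    have e2 : (fun K L : ℕ => |φ K L|) = φ := by
      funext K L
      rw [abs_of_nonneg (hpos K L)]
    rw [e1, e2] at q1
    exact Ew_up hZ hd hZ0 (q1.trans (by linarith)) (by positivity)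
  have hB : ∀ (c : ℝ) (p : ℕ), 0 ≤ c → p ≤ 6 → G * (c * μ ^ p) / μ ^ 6 ≤ c * G := by
    intro c p hc hp
    rw [div_le_iff₀ (by positivity)]
    have : μ ^ p ≤ μ ^ 6 := pow_le_pow_right₀ hμ1 hp
    calc G * (c * μ ^ p) = c * G * μ ^ p := by ring
      _ ≤ c * G * μ ^ 6 := mul_le_mul_of_nonneg_left this (by positivity)
  have hGμ : G ≤ G * μ := le_mul_of_one_le_right hG0 hμ1
  refine ⟨?_, ?_, ?_, ?_, ?_, ?_⟩
  · have h1 := hgm 0 2 (by norm_num)
    simp only [pow_zero, one_mul, mul_one] at h1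
    have h2 := hup (fun K L => g K L ^ 2) (1 * μ ^ 2) _ (PB2_g.pow 2) (by positivity)
      (fun K L => by have := g_nonneg K L; positivity)
      (fun K L h => by rw [one_mul]; exact pow_le_pow_left₀ (g_nonneg K L) (bad_g h) 2) h1
      (by positivity)
    refine (show Ew a (fun K L => g K L ^ 2) ≤ _ from h2).trans ?_
    have h3 := hB 1 2 (by norm_num) (by norm_num)
    linarith
  · have h1 := hgm 0 3 (by norm_num)
    simp only [pow_zero, one_mul, mul_one] at h1
    have h2 := hup (fun K L => g K L ^ 3) (1 * μ ^ 3) _ (PB2_g.pow 3) (by positivity)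
      (fun K L => by have := g_nonneg K L; positivity)
      (fun K L h => by rw [one_mul]; exact pow_le_pow_left₀ (g_nonneg K L) (bad_g h) 3) h1
      (by positivity)
    refine (show Ew a (fun K L => g K L ^ 3) ≤ _ from h2).trans ?_
    have h3 := hB 1 3 (by norm_num) (by norm_num)
    linarith
  · have h1 := hgm 2 1 (by norm_num)
    simp only [pow_one, sq_abs, hrr] at h1
    have h2 := hup (fun K L => X μ K L ^ 2 * g K L) (4 * μ ^ 3) _ ((hX.pow 2).mul PB2_g)
      (by positivity)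
      (fun K L => by have := g_nonneg K L; positivity)
      (fun K L h => by
        have e1 : X μ K L ^ 2 ≤ (2 * μ) ^ 2 := by
          rw [← sq_abs]
          exact pow_le_pow_left₀ (abs_nonneg _) (bad_X h) 2
        calc X μ K L ^ 2 * g K L ≤ (2 * μ) ^ 2 * μ :=
              mul_le_mul e1 (bad_g h) (g_nonneg K L) (by positivity)
          _ = 4 * μ ^ 3 := by ring) h1
      (by positivity)
    refine (show Ew a (fun K L => X μ K L ^ 2 * g K L) ≤ _ from h2).trans ?_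
    have h3 := hB 4 3 (by norm_num) (by norm_num)
    linarith
  · have h0 := htail (fun K L => 1 / ((K : ℝ) + L + 1 / 2)) 2 PB2_inv (by norm_num)
      (fun K L _ => by
        have h1 : (0 : ℝ) ≤ K := Nat.cast_nonneg K
        have h2 : (0 : ℝ) ≤ L := Nat.cast_nonneg L
        rw [abs_of_nonneg (by positivity), div_le_iff₀ (by positivity)]
        linarith)
    have h1 := split_le ham PB2_inv (PB2.const (4 / 3 / μ)) (c := 3 / 4 * μ)
      (fun K L => by positivity) (fun K L h => by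
        have h1 : (0 : ℝ) ≤ K := Nat.cast_nonneg K
        have h2 : (0 : ℝ) ≤ L := Nat.cast_nonneg L
        rw [div_le_div_iff₀ (by positivity) hμ0]
        linarith) h0
    rw [ham.E2_cst] at h1
    have h8 : G * 2 / μ ^ 8 ≤ 2 * G / μ := by
      rw [div_le_div_iff₀ (by positivity) hμ0]
      have : μ ≤ μ ^ 8 := le_self_pow₀ hμ1 (by norm_num)
      calc G * 2 * μ = 2 * G * μ := by ring
        _ ≤ 2 * G * μ ^ 8 := mul_le_mul_of_nonneg_left this (by positivity)
    have h6 : G * 2 / μ ^ 6 ≤ 2 * G / μ := by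
      rw [div_le_div_iff₀ (by positivity) hμ0]
      have : μ ≤ μ ^ 6 := le_self_pow₀ hμ1 (by norm_num)
      calc G * 2 * μ = 2 * G * μ := by ring
        _ ≤ 2 * G * μ ^ 6 := mul_le_mul_of_nonneg_left this (by positivity)
    have h2 := hup (fun K L => 1 / ((K : ℝ) + L + 1 / 2)) 2 _ PB2_inv (by norm_num)
      (fun K L => by positivity)
      (fun K L _ => by
        have h1 : (0 : ℝ) ≤ K := Nat.cast_nonneg K
        have h2 : (0 : ℝ) ≤ L := Nat.cast_nonneg L
        rw [div_le_iff₀ (by positivity)]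
        linarith) h1 (by positivity)
    refine h2.trans ?_
    have e1 : 4 / 3 / μ ≤ 4 / 3 * G / μ := by
      refine div_le_div_of_nonneg_right ?_ hμ0.le
      linarith
    have e2 : 20 / 19 * (9 / 2 * (4 / 3 * G / μ + 2 * G / μ) + 2 * G / μ) ≤ 2000 * G / μ := by
      have : 20 / 19 * (9 / 2 * (4 / 3 * G / μ + 2 * G / μ) + 2 * G / μ) =
          (20 / 19 * (9 / 2 * (4 / 3 + 2) + 2)) * (G / μ) := by ring
      rw [this, show 2000 * G / μ = 2000 * (G / μ) by ring]
      exact mul_le_mul_of_nonneg_right (by norm_num) (by positivity)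
    linarith
  · have hP : PB2 (fun K L : ℕ => ((K : ℝ) - μ) ^ 4 + ((L : ℝ) - μ) ^ 4) :=
      (PB2.fst ((PB.id.sub (PB.const μ)).pow 4)).add (PB2.snd ((PB.id.sub (PB.const μ)).pow 4))
    have h1 : E2 a (fun K L => ((K : ℝ) - μ) ^ 4 + ((L : ℝ) - μ) ^ 4) ≤ G * μ ^ 2 := by
      have e1 := ham.E2_mono hP ((PB2_U μ).pow 4) fun K L => by
        unfold U
        have f1 : ((K : ℝ) - μ) ^ 4 = |(K : ℝ) - μ| ^ 4 := (Even.pow_abs (by decide) _).symm
        have f2 : ((L : ℝ) - μ) ^ 4 = |(L : ℝ) - μ| ^ 4 := (Even.pow_abs (by decide) _).symm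
        rw [f1, f2]
        exact pow_add_pow_le (abs_nonneg _) (abs_nonneg _) (by norm_num)
      refine e1.trans ((hmom 4 (by norm_num)).trans (le_of_eq ?_))
      rw [← hrr]
      ring
    have h2 := hup _ (2 * μ ^ 4) _ hP (by positivity) (fun K L => by positivity)
      (fun K L h => by
        have f1 : (0 : ℝ) ≤ K := Nat.cast_nonneg K
        have f2 : (0 : ℝ) ≤ L := Nat.cast_nonneg L
        have e1 : ((K : ℝ) - μ) ^ 4 ≤ μ ^ 4 := by
          rw [← Even.pow_abs (by decide)]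
          exact pow_le_pow_left₀ (abs_nonneg _) (by rw [abs_le]; constructor <;> linarith) 4
        have e2 : ((L : ℝ) - μ) ^ 4 ≤ μ ^ 4 := by
          rw [← Even.pow_abs (by decide)]
          exact pow_le_pow_left₀ (abs_nonneg _) (by rw [abs_le]; constructor <;> linarith) 4
        linarith) h1 (by positivity)
    refine h2.trans ?_
    have h3 := hB 2 4 (by norm_num) (by norm_num)
    have h4 : G ≤ G * μ ^ 2 := le_mul_of_one_le_right hG0 (one_le_pow₀ hμ1)
    linarith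
  · have hPK : PB (fun k : ℕ => ((k : ℝ) - μ) ^ 8) := (PB.id.sub (PB.const μ)).pow 8
    have hP : PB2 (fun K L : ℕ => ((K : ℝ) - μ) ^ 8 + ((L : ℝ) - μ) ^ 8) :=
      (PB2.fst hPK).add (PB2.snd hPK)
    have h1 : E2 a (fun K L => ((K : ℝ) - μ) ^ 8 + ((L : ℝ) - μ) ^ 8) = 2 * m8 a := by
      rw [ham.E2_add (PB2.fst hPK) (PB2.snd hPK), ham.E2_fst hPK, ham.E2_snd hPK, hm8e]
      ring
    have hm80 : 0 ≤ m8 a := by
      rw [hm8e]
      exact tsum_nonneg fun k => mul_nonneg (ham.nn k) (by positivity)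
    have h2 := hup _ (2 * μ ^ 8) _ hP (by positivity) (fun K L => by positivity)
      (fun K L h => by
        have f1 : (0 : ℝ) ≤ K := Nat.cast_nonneg K
        have f2 : (0 : ℝ) ≤ L := Nat.cast_nonneg L
        have e1 : ((K : ℝ) - μ) ^ 8 ≤ μ ^ 8 := by
          rw [← Even.pow_abs (by decide)]
          exact pow_le_pow_left₀ (abs_nonneg _) (by rw [abs_le]; constructor <;> linarith) 8
        have e2 : ((L : ℝ) - μ) ^ 8 ≤ μ ^ 8 := by
          rw [← Even.pow_abs (by decide)]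
          exact pow_le_pow_left₀ (abs_nonneg _) (by rw [abs_le]; constructor <;> linarith) 8
        linarith) h1.le (by positivity)
    refine h2.trans ?_
    have h3 : G * (2 * μ ^ 8) / μ ^ 6 = 2 * G * μ ^ 2 := by
      field_simp
    rw [h3]
    have h4 : 20 / 19 * (2 * G * μ ^ 2) ≤ μ ^ 4 := by
      have e1 : 20 / 19 * (2 * G) ≤ μ ^ 2 := by
        have : μ ≤ μ ^ 2 := le_self_pow₀ hμ1 (by norm_num)
        linarith
      calc 20 / 19 * (2 * G * μ ^ 2) = (20 / 19 * (2 * G)) * μ ^ 2 := by ring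
        _ ≤ μ ^ 2 * μ ^ 2 := mul_le_mul_of_nonneg_right e1 (by positivity)
        _ = μ ^ 4 := by ring
    linarith

end Pool.Agent.Q61.MK
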