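import Pool.Agent.Q291.MK.Stm2

/-! Jobs EXP1, EXP2, EXP3 of the project MK of helper291: the engine. -/

set_option autoImplicit false

namespace Pool.Agent.Q61.MK

open Pool.Agent.Q291.MK

/-- the centred sum -/
noncomputable def X (μ : ℝ) (K L : ℕ) : ℝ := (K : ℝ) + L - 2 * μ

noncomputable def U (μ : ℝ) (K L : ℕ) : ℝ := |(K : ℝ) - μ| + |(L : ℝ) - μ|

noncomputable def g (K L : ℕ) : ℝ := ((K : ℝ) - L) ^ 2 / (K + L + 1 / 2)

theorem PB2_X (μ : ℝ) : PB2 (X μ) :=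
  ((PB2.fst PB.id).add (PB2.snd PB.id)).sub (PB2.const (2 * μ))

theorem PB2_U (μ : ℝ) : PB2 (U μ) :=
  (PB2.fst (PB.id.sub (PB.const μ)).abs).add (PB2.snd (PB.id.sub (PB.const μ)).abs)

theorem g_nonneg (K L : ℕ) : 0 ≤ g K L := by
  unfold g
  positivity

theorem g_le (K L : ℕ) : g K L ≤ (K : ℝ) + L := by
  unfold g
  have h1 : (0 : ℝ) ≤ K := Nat.cast_nonneg K
  have h2 : (0 : ℝ) ≤ L := Nat.cast_nonneg L
  rw [div_le_iff₀ (by positivity)]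
  nlinarith [mul_nonneg h1 h2]

theorem PB2_g : PB2 g :=
  ((PB2.fst PB.id).add (PB2.snd PB.id)).of_le fun K L => by
    rw [abs_of_nonneg (g_nonneg K L)]
    exact g_le K L

theorem PB2_inv : PB2 (fun K L => 1 / ((K : ℝ) + L + 1 / 2)) :=
  PB2.bdd 2 fun K L => by
    have h1 : (0 : ℝ) ≤ K := Nat.cast_nonneg K
    have h2 : (0 : ℝ) ≤ L := Nat.cast_nonneg L
    rw [abs_of_nonneg (by positivity), div_le_iff₀ (by positivity)]
    linarith

theorem U_nonneg (μ : ℝ) (K L : ℕ) : 0 ≤ U μ K L := by unfold U; positivity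

theorem X_le_U (μ : ℝ) (K L : ℕ) : |X μ K L| ≤ U μ K L := by
  unfold X U
  have : (K : ℝ) + L - 2 * μ = ((K : ℝ) - μ) + ((L : ℝ) - μ) := by ring
  rw [this]
  exact abs_add_le _ _

theorem Y_le_U (μ : ℝ) (K L : ℕ) : |(K : ℝ) - L| ≤ U μ K L := by
  unfold U
  have : (K : ℝ) - L = ((K : ℝ) - μ) - ((L : ℝ) - μ) := by ring
  rw [this]
  exact abs_sub _ _

theorem bad_X {μ : ℝ} {K L : ℕ} (h : (K : ℝ) + L < 3 / 4 * μ) : |X μ K L| ≤ 2 * μ := by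
  have h1 : (0 : ℝ) ≤ K := Nat.cast_nonneg K
  have h2 : (0 : ℝ) ≤ L := Nat.cast_nonneg L
  unfold X
  rw [abs_le]
  constructor <;> linarith

theorem bad_g {μ : ℝ} {K L : ℕ} (h : (K : ℝ) + L < 3 / 4 * μ) : g K L ≤ μ := by
  have h1 : (0 : ℝ) ≤ K := Nat.cast_nonneg K
  have h2 : (0 : ℝ) ≤ L := Nat.cast_nonneg L
  have := g_le K L
  linarith

theorem good_g {μ : ℝ} (hμ : 0 < μ) {K L : ℕ} (h : 3 / 4 * μ ≤ (K : ℝ) + L) :
    g K L ≤ 4 / 3 * U μ K L ^ 2 / μ := by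
  unfold g
  have h1 : ((K : ℝ) - L) ^ 2 ≤ U μ K L ^ 2 := by
    rw [← sq_abs]
    exact pow_le_pow_left₀ (abs_nonneg _) (Y_le_U μ K L) 2
  rw [div_le_div_iff₀ (by positivity) hμ]
  have h2 : μ ≤ 4 / 3 * ((K : ℝ) + L + 1 / 2) := by linarith
  calc ((K : ℝ) - L) ^ 2 * μ ≤ U μ K L ^ 2 * (4 / 3 * ((K : ℝ) + L + 1 / 2)) :=
        mul_le_mul h1 h2 hμ.le (sq_nonneg _)
    _ = _ := by ring

/-- powers -/
theorem pw {r : ℝ} (hr : 1 ≤ r) {p q s : ℕ} (h : p + s ≤ q) : r ^ p / r ^ q ≤ 1 / r ^ s := by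
  have hr0 : 0 < r := by linarith
  rw [div_le_div_iff₀ (pow_pos hr0 _) (pow_pos hr0 _), ← pow_add, one_mul]
  exact pow_le_pow_right₀ hr h

theorem dv {E A r μ : ℝ} {p q : ℕ} (hr : 1 ≤ r) (hμ : r ^ 2 = μ) (hA : 0 ≤ A)
    (h : E ≤ A * r ^ p) (hpq : p + 2 ≤ 2 * q) : E / μ ^ q ≤ A / μ := by
  have hr0 : 0 < r := by linarith
  rw [← hμ, div_le_div_iff₀ (by positivity) (by positivity)]
  calc E * r ^ 2 ≤ (A * r ^ p) * r ^ 2 := mul_le_mul_of_nonneg_right h (by positivity)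
    _ = A * r ^ (p + 2) := by ring
    _ ≤ A * r ^ (2 * q) := mul_le_mul_of_nonneg_left (pow_le_pow_right₀ hr hpq) hA
    _ = A * (r ^ 2) ^ q := by rw [pow_mul]

theorem dv0 {E A r μ : ℝ} {p q : ℕ} (hr : 1 ≤ r) (hμ : r ^ 2 = μ) (hA : 0 ≤ A)
    (h : E ≤ A * r ^ p) (hpq : p ≤ 2 * q) : E / μ ^ q ≤ A := by
  have hr0 : 0 < r := by linarith
  rw [← hμ, div_le_iff₀ (by positivity)]
  calc E ≤ A * r ^ p := h
    _ ≤ A * r ^ (2 * q) := mul_le_mul_of_nonneg_left (pow_le_pow_right₀ hr hpq) hA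
    _ = A * (r ^ 2) ^ q := by rw [pow_mul]

theorem Ew_near {N Z Z0 m e d : ℝ} (hZ : |Z / Z0 - 1| ≤ d) (hd : d ≤ 1 / 2)
    (hZ0 : 0 < Z0) (hN : |N / Z0 - m| ≤ e) : |N / Z - m| ≤ 2 * (e + |m| * d) := by
  obtain ⟨h1, h2⟩ := abs_le.1 hZ
  have hq : 1 / 2 ≤ Z / Z0 := by linarith
  have hZp : 0 < Z := by
    by_contra hc
    push Not at hc
    have := div_nonpos_of_nonpos_of_nonneg hc hZ0.le
    linarith
  have e1 : N / Z - m = ((N / Z0 - m) + m * (1 - Z / Z0)) / (Z / Z0) := by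
    field_simp
    ring
  rw [e1, abs_div, abs_of_pos (show 0 < Z / Z0 by positivity), div_le_iff₀ (by positivity)]
  have e2 : |(N / Z0 - m) + m * (1 - Z / Z0)| ≤ e + |m| * d := by
    refine (abs_add_le _ _).trans (add_le_add hN ?_)
    rw [abs_mul, abs_sub_comm]
    exact mul_le_mul_of_nonneg_left hZ (abs_nonneg _)
  have e3 : 0 ≤ e + |m| * d := (abs_nonneg _).trans e2
  nlinarith

theorem Ew_up {N Z Z0 u d : ℝ} (hZ : |Z / Z0 - 1| ≤ d) (hd : d ≤ 1 / 20)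
    (hZ0 : 0 < Z0) (hN : N / Z0 ≤ u) (hu : 0 ≤ u) : N / Z ≤ 20 / 19 * u := by
  obtain ⟨h1, h2⟩ := abs_le.1 hZ
  have hq : 19 / 20 ≤ Z / Z0 := by linarith
  have hZp : 0 < Z := by
    by_contra hc
    push Not at hc
    have := div_nonpos_of_nonpos_of_nonneg hc hZ0.le
    linarith
  have e1 : N / Z = (N / Z0) / (Z / Z0) := by field_simp
  rw [e1, div_le_iff₀ (by positivity)]
  nlinarith

/-- the tail set -/
theorem split_le {a : ℕ → ℝ} (ha : AM a) {ψ ψ1 : ℕ → ℕ → ℝ} {c t : ℝ} (h : PB2 ψ) (h1 : PB2 ψ1)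
    (h01 : ∀ K L, 0 ≤ ψ1 K L)
    (hg : ∀ K L : ℕ, c ≤ (K : ℝ) + L → ψ K L ≤ ψ1 K L)
    (hb : E2 a (fun K L => if (K : ℝ) + L < c then |ψ K L| else 0) ≤ t) :
    E2 a ψ ≤ E2 a ψ1 + t := by
  have hPB : PB2 (fun K L => if (K : ℝ) + L < c then |ψ K L| else 0) := by
    refine h.abs.of_le fun K L => ?_
    split_ifs
    · rw [abs_abs]
    · rw [abs_zero]
      exact abs_nonneg _
  refine le_trans ?_ (add_le_add le_rfl hb)
  rw [← ha.E2_add h1 hPB]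
  refine ha.E2_mono h (h1.add hPB) fun K L => ?_
  split_ifs with hc
  · have := h01 K L
    have := le_abs_self (ψ K L)
    linarith
  · push Not at hc
    have := hg K L hc
    linarith

theorem eng (hM : P_EXPM) (hA : P_EXPA) : ∀ C8 : ℝ, 1 ≤ C8 → ∃ D : ℝ, 1 ≤ D ∧
    ∀ (C3 : ℝ) (a : ℕ → ℝ), Cls C3 C8 a → 10 ≤ mean a → 20 * D ≤ mean a →
    (∀ p : ℕ, p ≤ 8 → E2 a (fun K L => U (mean a) K L ^ p) ≤ D * √(mean a) ^ p) ∧
    (∀ (φ : ℕ → ℕ → ℝ) (B : ℝ), PB2 φ → 0 ≤ B →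
      (∀ K L : ℕ, (K : ℝ) + L < 3 / 4 * mean a → |φ K L| ≤ B) →
      E2 a (fun K L => if (K : ℝ) + L < 3 / 4 * mean a then |φ K L| else 0) ≤
        D * B / mean a ^ 8) ∧
    ∃ Z0 c0 : ℝ, 0 < Z0 ∧ |c0| ≤ D / mean a ∧
    |E2 a (fun K L => I (K + L)) / Z0 - 1| ≤ D / mean a ∧
    ∀ (φ : ℕ → ℕ → ℝ) (B : ℝ), PB2 φ → 0 ≤ B →
      (∀ K L : ℕ, (K : ℝ) + L < 3 / 4 * mean a → |φ K L| ≤ B) →
      |E2 a (fun K L => I (K + L) * φ K L) / Z0 -
        ((1 + c0) * E2 a φ - 3 / 4 * (E2 a (fun K L => X (mean a) K L * φ K L) / mean a) +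
          15 / 32 * (E2 a (fun K L => X (mean a) K L ^ 2 * φ K L) / mean a ^ 2))| ≤
        D * (E2 a (fun K L => |φ K L| * |X (mean a) K L| ^ 3) / mean a ^ 3 +
          E2 a (fun K L => |φ K L| * |X (mean a) K L|) / mean a ^ 2 +
          E2 a (fun K L => |φ K L|) / mean a ^ 2) + D * B / mean a ^ 6 ∧
      E2 a (fun K L => I (K + L) * |φ K L|) / Z0 ≤
        9 / 2 * E2 a (fun K L => |φ K L|) + D * B / mean a ^ 6 := by
  obtain ⟨D0, hD0, hA⟩ := hA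
  intro C8 hC8
  obtain ⟨A8, hA8⟩ : ∃ A, A = 512 * (C8 + 1) := ⟨_, rfl⟩
  have hA80 : 0 < A8 := by rw [hA8]; positivity
  refine ⟨A8 + 4 ^ 16 * C8 ^ 2 + D0 * C8 ^ 2 + D0 + (D0 + 1 + D0 * (2 * A8 + 1) + D0 * C8 ^ 2), ?_, ?_⟩
  · have h1 : 1 ≤ A8 := by rw [hA8]; linarith
    have h2 : 0 ≤ D0 * C8 ^ 2 := by positivity
    have h3 : 0 ≤ D0 * (2 * A8 + 1) := by positivity
    have h4 : (0 : ℝ) ≤ 4 ^ 16 * C8 ^ 2 := by positivity
    linarith
  intro C3 a ha hμ hμD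
  obtain ⟨D, hD⟩ : ∃ D, D = A8 + 4 ^ 16 * C8 ^ 2 + D0 * C8 ^ 2 + D0 +
    (D0 + 1 + D0 * (2 * A8 + 1) + D0 * C8 ^ 2) := ⟨_, rfl⟩
  rw [← hD] at hμD ⊢
  have hDA : A8 ≤ D := by
    have h2 : 0 ≤ D0 * C8 ^ 2 := by positivity
    have h3 : 0 ≤ D0 * (2 * A8 + 1) := by positivity
    have h4 : (0 : ℝ) ≤ 4 ^ 16 * C8 ^ 2 := by positivity
    linarith
  have hD4 : 4 ^ 16 * C8 ^ 2 ≤ D := by
    have h2 : 0 ≤ D0 * C8 ^ 2 := by positivity
    have h3 : 0 ≤ D0 * (2 * A8 + 1) := by positivity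
    linarith
  have hDC : D0 * C8 ^ 2 ≤ D := by
    have h2 : 0 ≤ D0 * C8 ^ 2 := by positivity
    have h3 : 0 ≤ D0 * (2 * A8 + 1) := by positivity
    have h4 : (0 : ℝ) ≤ 4 ^ 16 * C8 ^ 2 := by positivity
    linarith
  have hDD : D0 ≤ D := by
    have h2 : 0 ≤ D0 * C8 ^ 2 := by positivity
    have h3 : 0 ≤ D0 * (2 * A8 + 1) := by positivity
    have h4 : (0 : ℝ) ≤ 4 ^ 16 * C8 ^ 2 := by positivity
    linarith
  have hD1 : D0 + 1 + D0 * (2 * A8 + 1) + D0 * C8 ^ 2 ≤ D := by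
    have h2 : 0 ≤ D0 * C8 ^ 2 := by positivity
    have h4 : (0 : ℝ) ≤ 4 ^ 16 * C8 ^ 2 := by positivity
    linarith
  obtain ⟨m1, m2, m3, m4, m5, m6, m7⟩ := hM C3 C8 a ha (by linarith)
  obtain ⟨Z0, c0, hZ0, hc0, hexp⟩ := hA C3 C8 hC8 a ha hμ
  obtain ⟨μ, hμe⟩ : ∃ μ, μ = mean a := ⟨_, rfl⟩
  have ham := ha.toAM
  have hvr := ha.vr_le
  simp only [← hμe] at hμ hμD m1 m2 m3 m4 m5 m7 hc0 hexp hvr ⊢
  have hμ0 : 0 < μ := by linarith
  have hX := PB2_X μ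
  have hmom : ∀ p : ℕ, p ≤ 8 → E2 a (fun K L => U μ K L ^ p) ≤ D * √μ ^ p := by
    intro p hp
    refine (m1 p hp).trans ?_
    rw [← hA8]
    exact mul_le_mul_of_nonneg_right hDA (by positivity)
  have hmomA : ∀ p : ℕ, p ≤ 8 → E2 a (fun K L => U μ K L ^ p) ≤ A8 * √μ ^ p := by
    intro p hp
    rw [hA8]
    exact m1 p hp
  have hgen : ∀ (φ : ℕ → ℕ → ℝ) (B : ℝ), PB2 φ → 0 ≤ B →
      (∀ K L : ℕ, (K : ℝ) + L < 3 / 4 * μ → |φ K L| ≤ B) →
      |E2 a (fun K L => I (K + L) * φ K L) / Z0 -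
        ((1 + c0) * E2 a φ - 3 / 4 * (E2 a (fun K L => X μ K L * φ K L) / μ) +
          15 / 32 * (E2 a (fun K L => X μ K L ^ 2 * φ K L) / μ ^ 2))| ≤
        D0 * (E2 a (fun K L => |φ K L| * |X μ K L| ^ 3) / μ ^ 3 +
          E2 a (fun K L => |φ K L| * |X μ K L|) / μ ^ 2 +
          E2 a (fun K L => |φ K L|) / μ ^ 2) + D0 * B * C8 ^ 2 / μ ^ 6 ∧
      E2 a (fun K L => I (K + L) * |φ K L|) / Z0 ≤
        9 / 2 * E2 a (fun K L => |φ K L|) + D0 * B * C8 ^ 2 / μ ^ 6 := by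
    intro φ B hφ hB hbad
    obtain ⟨h1, h2⟩ := hexp φ B hφ hB hbad
    refine ⟨?_, h2⟩
    have e1 : E2 a (fun K L => (1 + c0 - 3 / 4 * (((K : ℝ) + L - 2 * μ) / μ) +
        15 / 32 * (((K : ℝ) + L - 2 * μ) / μ) ^ 2) * φ K L) =
        (1 + c0) * E2 a φ - 3 / 4 * (E2 a (fun K L => X μ K L * φ K L) / μ) +
          15 / 32 * (E2 a (fun K L => X μ K L ^ 2 * φ K L) / μ ^ 2) := by
      have f1 : (fun K L : ℕ => (1 + c0 - 3 / 4 * (((K : ℝ) + L - 2 * μ) / μ) +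
          15 / 32 * (((K : ℝ) + L - 2 * μ) / μ) ^ 2) * φ K L) =
          fun K L => ((1 + c0) * φ K L + (-(3 / 4) / μ) * (X μ K L * φ K L)) +
            (15 / 32 / μ ^ 2) * (X μ K L ^ 2 * φ K L) := by
        funext K L
        unfold X
        field_simp
        ring
      rw [f1, ham.E2_add (((PB2.const _).mul hφ).add ((PB2.const _).mul (hX.mul hφ)))
        ((PB2.const _).mul ((hX.pow 2).mul hφ)),
        ham.E2_add ((PB2.const _).mul hφ) ((PB2.const _).mul (hX.mul hφ)),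
        E2_const_mul, E2_const_mul, E2_const_mul]
      field_simp
      ring
    have e2 : E2 a (fun K L => |φ K L| * (|(K : ℝ) + L - 2 * μ| ^ 3 / μ ^ 3 +
        |(K : ℝ) + L - 2 * μ| / μ ^ 2 + 1 / μ ^ 2)) =
        E2 a (fun K L => |φ K L| * |X μ K L| ^ 3) / μ ^ 3 +
          E2 a (fun K L => |φ K L| * |X μ K L|) / μ ^ 2 +
          E2 a (fun K L => |φ K L|) / μ ^ 2 := by
      have f1 : (fun K L : ℕ => |φ K L| * (|(K : ℝ) + L - 2 * μ| ^ 3 / μ ^ 3 +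
          |(K : ℝ) + L - 2 * μ| / μ ^ 2 + 1 / μ ^ 2)) =
          fun K L => ((1 / μ ^ 3) * (|φ K L| * |X μ K L| ^ 3) +
            (1 / μ ^ 2) * (|φ K L| * |X μ K L|)) + (1 / μ ^ 2) * |φ K L| := by
        funext K L
        unfold X
        ring
      rw [f1, ham.E2_add (((PB2.const _).mul (hφ.abs.mul (hX.abs.pow 3))).add
        ((PB2.const _).mul (hφ.abs.mul hX.abs))) ((PB2.const _).mul hφ.abs),
        ham.E2_add ((PB2.const _).mul (hφ.abs.mul (hX.abs.pow 3)))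
        ((PB2.const _).mul (hφ.abs.mul hX.abs)), E2_const_mul, E2_const_mul, E2_const_mul]
      ring
    rw [e1, e2] at h1
    exact h1
  have habs : ∀ (φ : ℕ → ℕ → ℝ), PB2 φ → 0 ≤ E2 a (fun K L => |φ K L|) := fun φ hφ =>
    (abs_nonneg _).trans (ham.abs_E2_le hφ)
  refine ⟨hmom, ?_, Z0, c0, hZ0, ?_, ?_, ?_⟩
  · intro φ B hφ hB hbad
    refine (m2 φ B hφ hB hbad).trans ?_
    refine div_le_div_of_nonneg_right ?_ (by positivity)
    calc 4 ^ 16 * B * C8 ^ 2 = (4 ^ 16 * C8 ^ 2) * B := by ring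
      _ ≤ D * B := mul_le_mul_of_nonneg_right hD4 hB
  · exact hc0.trans (div_le_div_of_nonneg_right hDD hμ0.le)
  · obtain ⟨h1, _⟩ := hgen (fun _ _ => 1) 1 (PB2.const 1) zero_le_one (fun K L _ => by simp)
    have hr1 : 1 ≤ √μ := by
      rw [Real.one_le_sqrt]
      linarith
    have hrr : √μ ^ 2 = μ := Real.sq_sqrt hμ0.le
    obtain ⟨r, hr⟩ : ∃ r, r = √μ := ⟨_, rfl⟩
    rw [← hr] at hr1 hrr
    have hr0 : 0 < r := by linarith
    simp only [mul_one, abs_one, one_mul] at h1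
    have f1 : E2 a (fun K L => X μ K L) = 0 := m3
    have f2 : E2 a (fun K L => X μ K L ^ 2) = 2 * vr a := m4
    have f3 : E2 a (fun _ _ => (1 : ℝ)) = 1 := ham.E2_cst 1
    have f4 : E2 a (fun K L => |X μ K L| ^ 3) ≤ A8 * r ^ 3 := by
      refine le_trans (ham.E2_mono (hX.abs.pow 3) ((PB2_U μ).pow 3) fun K L => ?_)
        (by rw [hr]; exact hmomA 3 (by norm_num))
      exact pow_le_pow_left₀ (abs_nonneg _) (X_le_U μ K L) 3
    have f5 : E2 a (fun K L => |X μ K L|) ≤ A8 * r := by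
      have := le_trans (ham.E2_mono hX.abs ((PB2_U μ).pow 1) fun K L => by
        rw [pow_one]; exact X_le_U μ K L) (hmomA 1 (by norm_num))
      rwa [pow_one, ← hr] at this
    rw [f1, f2, f3] at h1
    have hvr0 : 0 ≤ vr a := by
      have := habs (fun K L => X μ K L ^ 2) (hX.pow 2)
      have e : (fun K L : ℕ => |X μ K L ^ 2|) = fun K L => X μ K L ^ 2 := by
        funext K L
        exact abs_of_nonneg (sq_nonneg _)
      rw [e, f2] at this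
      linarith
    have g1 : E2 a (fun K L => |X μ K L| ^ 3) / μ ^ 3 ≤ A8 / μ :=
      dv hr1 hrr hA80.le f4 (by norm_num)
    have g2 : E2 a (fun K L => |X μ K L|) / μ ^ 2 ≤ A8 / μ :=
      dv (p := 1) hr1 hrr hA80.le (by rw [pow_one]; exact f5) (by norm_num)
    have g3 : 1 / μ ^ 2 ≤ 1 / μ := by
      rw [div_le_div_iff₀ (by positivity) (by positivity)]
      nlinarith
    have g4 : 1 / μ ^ 6 ≤ 1 / μ := by
      rw [div_le_div_iff₀ (by positivity) (by positivity), one_mul, one_mul]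
      exact le_self_pow₀ (by linarith) (by norm_num)
    have g5 : 15 / 32 * (2 * vr a / μ ^ 2) ≤ 1 / μ := by
      have : 2 * vr a / μ ^ 2 ≤ 2 / μ := by
        rw [div_le_div_iff₀ (by positivity) (by positivity)]
        nlinarith
      have e : 15 / 32 * (2 / μ) ≤ 1 / μ := by
        rw [mul_div_assoc', div_le_div_iff₀ (by positivity) (by positivity)]
        nlinarith
      linarith [mul_le_mul_of_nonneg_left this (show (0 : ℝ) ≤ 15 / 32 by norm_num)]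
    have g5' : 0 ≤ 15 / 32 * (2 * vr a / μ ^ 2) := by positivity
    have g6 : D0 * (E2 a (fun K L => |X μ K L| ^ 3) / μ ^ 3 + E2 a (fun K L => |X μ K L|) / μ ^ 2 +
        1 / μ ^ 2) + D0 * C8 ^ 2 / μ ^ 6 ≤ (D0 * (2 * A8 + 1) + D0 * C8 ^ 2) / μ := by
      have e1 : D0 * (E2 a (fun K L => |X μ K L| ^ 3) / μ ^ 3 +
          E2 a (fun K L => |X μ K L|) / μ ^ 2 + 1 / μ ^ 2) ≤ D0 * (A8 / μ + A8 / μ + 1 / μ) :=
        mul_le_mul_of_nonneg_left (by linarith) hD0.le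
      have e2 : D0 * C8 ^ 2 / μ ^ 6 ≤ D0 * C8 ^ 2 * (1 / μ) := by
        rw [div_eq_mul_one_div]
        exact mul_le_mul_of_nonneg_left g4 (by positivity)
      have e3 : (D0 * (2 * A8 + 1) + D0 * C8 ^ 2) / μ =
          D0 * (A8 / μ + A8 / μ + 1 / μ) + D0 * C8 ^ 2 * (1 / μ) := by ring
      linarith
    have g7 : |E2 a (fun K L => I (K + L)) / Z0 - 1| ≤ (D0 + 1 + D0 * (2 * A8 + 1) +
        D0 * C8 ^ 2) / μ := by
      have e1 : E2 a (fun K L => I (K + L)) / Z0 - 1 =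
          (E2 a (fun K L => I (K + L)) / Z0 - ((1 + c0) * 1 - 3 / 4 * (0 / μ) +
            15 / 32 * (2 * vr a / μ ^ 2))) + (c0 + 15 / 32 * (2 * vr a / μ ^ 2)) := by
        ring
      rw [e1]
      refine (abs_add_le _ _).trans ?_
      have e2 : |c0 + 15 / 32 * (2 * vr a / μ ^ 2)| ≤ D0 / μ + 1 / μ := by
        refine (abs_add_le _ _).trans (add_le_add hc0 ?_)
        rw [abs_of_nonneg g5']
        exact g5
      have e3 := h1.trans g6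
      have e4 : (D0 + 1 + D0 * (2 * A8 + 1) + D0 * C8 ^ 2) / μ =
          (D0 * (2 * A8 + 1) + D0 * C8 ^ 2) / μ + (D0 / μ + 1 / μ) := by ring
      rw [e4]
      exact add_le_add e3 e2
    exact g7.trans (div_le_div_of_nonneg_right hD1 hμ0.le)
  · intro φ B hφ hB hbad
    obtain ⟨h1, h2⟩ := hgen φ B hφ hB hbad
    have n1 : 0 ≤ E2 a (fun K L => |φ K L| * |X μ K L| ^ 3) := by
      have := habs (fun K L => φ K L * X μ K L ^ 3) (hφ.mul (hX.pow 3))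
      simpa only [abs_mul, abs_pow] using this
    have n2 : 0 ≤ E2 a (fun K L => |φ K L| * |X μ K L|) := by
      have := habs (fun K L => φ K L * X μ K L) (hφ.mul hX)
      simpa only [abs_mul] using this
    have n3 := habs φ hφ
    have e1 : D0 * (E2 a (fun K L => |φ K L| * |X μ K L| ^ 3) / μ ^ 3 +
          E2 a (fun K L => |φ K L| * |X μ K L|) / μ ^ 2 + E2 a (fun K L => |φ K L|) / μ ^ 2) ≤
        D * (E2 a (fun K L => |φ K L| * |X μ K L| ^ 3) / μ ^ 3 +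
          E2 a (fun K L => |φ K L| * |X μ K L|) / μ ^ 2 + E2 a (fun K L => |φ K L|) / μ ^ 2) :=
      mul_le_mul_of_nonneg_right hDD (by positivity)
    have e2 : D0 * B * C8 ^ 2 / μ ^ 6 ≤ D * B / μ ^ 6 := by
      refine div_le_div_of_nonneg_right ?_ (by positivity)
      calc D0 * B * C8 ^ 2 = (D0 * C8 ^ 2) * B := by ring
        _ ≤ D * B := mul_le_mul_of_nonneg_right hDC hB
    exact ⟨h1.trans (add_le_add e1 e2), h2.trans (add_le_add le_rfl e2)⟩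

end Pool.Agent.Q61.MK
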